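import Pool.Agent.helper12.GN.GN0
import Pool.Agent.helper57.GN.GN6a

/-!
# GNU project (MP_d11331_al), module GN7a: nonabelian groups of order `w ^ 3` with an automorphism
of order `B`
-/

namespace Pool.Agent.helper74.GN.G7a

section heis

variable {H : Type} [Group H]

/-- the commutator with `y * x = x * y * zz x y` -/
def zz (x y : H) : H := (x * y)⁻¹ * (y * x)

theorem zz_spec (x y : H) : y * x = x * y * zz x y := by
  rw [zz, mul_inv_cancel_left]

theorem zz_map {H' : Type} [Group H'] (f : H →* H') (x y : H) :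
    f (zz x y) = zz (f x) (f y) := by
  simp [zz]

theorem mul_pow_left' {x y : H} (hz : ∀ h, zz x y * h = h * zz x y) (i : ℕ) :
    y * x ^ i = x ^ i * y * zz x y ^ i := by
  have hc : ∀ n : ℕ, ∀ h, zz x y ^ n * h = h * zz x y ^ n := fun n h =>
    (Commute.pow_left (show Commute (zz x y) h from hz h) n)
  induction i with
  | zero => simp
  | succ i ih =>
    rw [pow_succ, ← mul_assoc, ih, mul_assoc (x ^ i * y), hc, pow_succ' (zz x y)]
    rw [← mul_assoc (x ^ i * y), mul_assoc (x ^ i) y x, zz_spec x y]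
    simp only [mul_assoc]

theorem swap_pow {x y : H} (hz : ∀ h, zz x y * h = h * zz x y) (i j : ℕ) :
    y ^ j * x ^ i = x ^ i * y ^ j * zz x y ^ (i * j) := by
  have hc : ∀ n : ℕ, ∀ h, zz x y ^ n * h = h * zz x y ^ n := fun n h =>
    (Commute.pow_left (show Commute (zz x y) h from hz h) n)
  induction j with
  | zero => simp
  | succ j ih =>
    rw [pow_succ, mul_assoc, mul_pow_left' hz i, ← mul_assoc, ← mul_assoc, ih,
      mul_assoc (x ^ i * y ^ j), hc, ← mul_assoc, mul_assoc (x ^ i), mul_assoc, ← pow_add,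
      Nat.mul_succ]

theorem mul_pow_class2 {x y : H} (hz : ∀ h, zz x y * h = h * zz x y) (n : ℕ) :
    (x * y) ^ n = x ^ n * y ^ n * zz x y ^ (n.choose 2) := by
  have hc : ∀ n : ℕ, ∀ h, zz x y ^ n * h = h * zz x y ^ n := fun n h =>
    (Commute.pow_left (show Commute (zz x y) h from hz h) n)
  induction n with
  | zero => simp
  | succ n ih =>
    have h1 := swap_pow hz 1 n
    rw [pow_one, one_mul] at h1
    have h2 := hc n y
    have h3 := hc (n.choose 2) x
    have h4 := hc (n.choose 2) y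
    calc (x * y) ^ (n + 1) = x ^ n * y ^ n * (zz x y ^ (n.choose 2) * x) * y := by
          rw [pow_succ, ih]; simp only [mul_assoc]
      _ = x ^ n * (y ^ n * x) * (zz x y ^ (n.choose 2) * y) := by
          rw [h3]; simp only [mul_assoc]
      _ = x ^ n * x * y ^ n * (zz x y ^ n * y) * zz x y ^ (n.choose 2) := by
          rw [h1, h4]; simp only [mul_assoc]
      _ = x ^ (n + 1) * y ^ (n + 1) * zz x y ^ ((n + 1).choose 2) := by
          rw [h2, pow_succ x n, pow_succ y n, Nat.choose_succ_succ' n 1, Nat.choose_one_right, pow_add (zz x y) n]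
          simp only [mul_assoc]

/-- normal form -/
def nf {w : ℕ} (x y : H) (a : ZMod w × ZMod w × ZMod w) : H :=
  x ^ a.1.val * y ^ a.2.1.val * zz x y ^ a.2.2.val

theorem pow_val_add {w : ℕ} [NeZero w] {g : H} (hg : g ^ w = 1) (a b : ZMod w) :
    g ^ (a + b).val = g ^ a.val * g ^ b.val := by
  rw [ZMod.val_add, ← pow_add, pow_eq_pow_mod (a.val + b.val) hg]

theorem pow_val_mul {w : ℕ} [NeZero w] {g : H} (hg : g ^ w = 1) (a b : ZMod w) :
    g ^ (a * b).val = g ^ (a.val * b.val) := by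
  rw [ZMod.val_mul, pow_eq_pow_mod (a.val * b.val) hg]

theorem nf_mul {w : ℕ} [NeZero w] {x y : H} (hz : ∀ h, zz x y * h = h * zz x y)
    (hx : x ^ w = 1) (hy : y ^ w = 1) (hzw : zz x y ^ w = 1)
    (a b : ZMod w × ZMod w × ZMod w) :
    nf x y a * nf x y b =
      nf x y (a.1 + b.1, a.2.1 + b.2.1, a.2.2 + b.2.2 + b.1 * a.2.1) := by
  obtain ⟨a1, a2, a3⟩ := a
  obtain ⟨b1, b2, b3⟩ := b
  have hc : ∀ n : ℕ, ∀ h, zz x y ^ n * h = h * zz x y ^ n := fun n h =>
    (Commute.pow_left (show Commute (zz x y) h from hz h) n)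
  simp only [nf]
  rw [pow_val_add hx, pow_val_add hy, pow_val_add hzw, pow_val_add hzw, pow_val_mul hzw]
  calc x ^ a1.val * y ^ a2.val * zz x y ^ a3.val * (x ^ b1.val * y ^ b2.val * zz x y ^ b3.val)
      = x ^ a1.val * y ^ a2.val * (zz x y ^ a3.val * (x ^ b1.val * y ^ b2.val)) *
        zz x y ^ b3.val := by simp only [mul_assoc]
    _ = x ^ a1.val * (y ^ a2.val * x ^ b1.val) * y ^ b2.val * zz x y ^ a3.val *
        zz x y ^ b3.val := by rw [hc]; simp only [mul_assoc]
    _ = x ^ a1.val * x ^ b1.val * y ^ a2.val * (zz x y ^ (b1.val * a2.val) * y ^ b2.val) *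
        zz x y ^ a3.val * zz x y ^ b3.val := by rw [swap_pow hz]; simp only [mul_assoc]
    _ = x ^ a1.val * x ^ b1.val * y ^ a2.val * y ^ b2.val * (zz x y ^ (b1.val * a2.val) *
        (zz x y ^ a3.val * zz x y ^ b3.val)) := by rw [hc]; simp only [mul_assoc]
    _ = _ := by rw [hc (b1.val * a2.val)]; simp only [mul_assoc]

theorem nf_inj {w : ℕ} (hw : w.Prime) {x y : H} (hz : ∀ h, zz x y * h = h * zz x y)
    (hzw : zz x y ^ w = 1) (hz1 : zz x y ≠ 1) :
    Function.Injective (nf (w := w) x y) := by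
  have : Fact w.Prime := ⟨hw⟩
  have hord : orderOf (zz x y) = w := orderOf_eq_prime hzw hz1
  have hc : ∀ n : ℕ, ∀ h, zz x y ^ n * h = h * zz x y ^ n := fun n h =>
    (Commute.pow_left (show Commute (zz x y) h from hz h) n)
  have hval : ∀ a b : ZMod w, zz x y ^ a.val = zz x y ^ b.val → a = b := by
    intro a b hab
    have := (pow_inj_mod (x := zz x y)).1 hab
    rw [hord, Nat.mod_eq_of_lt (ZMod.val_lt a), Nat.mod_eq_of_lt (ZMod.val_lt b)] at this
    exact ZMod.val_injective w this
  have e1 : ∀ a : ZMod w × ZMod w × ZMod w,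
      y * nf x y a = nf x y a * y * zz x y ^ a.1.val := by
    rintro ⟨a1, a2, a3⟩
    simp only [nf]
    calc y * (x ^ a1.val * y ^ a2.val * zz x y ^ a3.val)
        = (y * x ^ a1.val) * y ^ a2.val * zz x y ^ a3.val := by simp only [mul_assoc]
      _ = x ^ a1.val * y * (zz x y ^ a1.val * (y ^ a2.val * zz x y ^ a3.val)) := by
          rw [mul_pow_left' hz]; simp only [mul_assoc]
      _ = x ^ a1.val * (y * y ^ a2.val) * zz x y ^ a3.val * zz x y ^ a1.val := by
          rw [hc]; simp only [mul_assoc]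
      _ = x ^ a1.val * y ^ a2.val * (y * zz x y ^ a3.val) * zz x y ^ a1.val := by
          rw [← pow_succ' y, pow_succ y]; simp only [mul_assoc]
      _ = _ := by rw [← hc a3.val y]; simp only [mul_assoc]
  have e2 : ∀ a : ZMod w × ZMod w × ZMod w,
      nf x y a * x = x * nf x y a * zz x y ^ a.2.1.val := by
    rintro ⟨a1, a2, a3⟩
    have h1 := swap_pow hz 1 a2.val
    rw [pow_one, one_mul] at h1
    simp only [nf]
    calc x ^ a1.val * y ^ a2.val * zz x y ^ a3.val * x
        = x ^ a1.val * y ^ a2.val * (zz x y ^ a3.val * x) := by simp only [mul_assoc]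
      _ = x ^ a1.val * (y ^ a2.val * x) * zz x y ^ a3.val := by
          rw [hc]; simp only [mul_assoc]
      _ = (x ^ a1.val * x) * y ^ a2.val * (zz x y ^ a2.val * zz x y ^ a3.val) := by
          rw [h1]; simp only [mul_assoc]
      _ = _ := by rw [hc, ← pow_succ x, pow_succ' x]; simp only [mul_assoc]
  intro a b hab
  have h1 : a.1 = b.1 := by
    have := e1 a
    rw [hab, e1 b] at this
    exact (hval _ _ (mul_left_cancel this)).symm
  have h2 : a.2.1 = b.2.1 := by
    have := e2 a
    rw [hab, e2 b] at this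
    exact (hval _ _ (mul_left_cancel this)).symm
  have h3 : a.2.2 = b.2.2 := by
    have : x ^ a.1.val * y ^ a.2.1.val * zz x y ^ a.2.2.val =
      x ^ b.1.val * y ^ b.2.1.val * zz x y ^ b.2.2.val := hab
    rw [h1, h2] at this
    exact hval _ _ (mul_left_cancel this)
  ext1
  · exact h1
  · ext1
    · exact h2
    · exact h3

theorem nf_bij {w : ℕ} (hw : w.Prime) (hH : Nat.card H = w ^ 3) {x y : H}
    (hz : ∀ h, zz x y * h = h * zz x y) (hzw : zz x y ^ w = 1) (hz1 : zz x y ≠ 1) :
    Function.Bijective (nf (w := w) x y) := by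
  have : Fact w.Prime := ⟨hw⟩
  have : Finite H := Nat.finite_of_card_ne_zero (by rw [hH]; exact pow_ne_zero 3 hw.ne_zero)
  refine (Nat.bijective_iff_injective_and_card _).2 ⟨nf_inj hw hz hzw hz1, ?_⟩
  rw [hH, Nat.card_prod, Nat.card_prod, Nat.card_zmod]
  ring

/-- The Heisenberg group is determined by two noncommuting elements. -/
theorem exists_equiv {w : ℕ} (hw : w.Prime) {H' : Type} [Group H'] (hH : Nat.card H = w ^ 3)
    (hH' : Nat.card H' = w ^ 3) {x y : H} {x' y' : H'}
    (hz : ∀ h, zz x y * h = h * zz x y) (hz' : ∀ h, zz x' y' * h = h * zz x' y')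
    (hx : x ^ w = 1) (hy : y ^ w = 1) (hx' : x' ^ w = 1) (hy' : y' ^ w = 1)
    (hzw : zz x y ^ w = 1) (hzw' : zz x' y' ^ w = 1)
    (hz1 : zz x y ≠ 1) (hz1' : zz x' y' ≠ 1) :
    ∃ e : H ≃* H', ∀ a : ZMod w × ZMod w × ZMod w, e (nf x y a) = nf x' y' a := by
  have : Fact w.Prime := ⟨hw⟩
  let F := Equiv.ofBijective _ (nf_bij hw hH hz hzw hz1)
  let F' := Equiv.ofBijective _ (nf_bij hw hH' hz' hzw' hz1')
  have hF : ∀ a, F a = nf x y a := fun a => rfl
  have hF' : ∀ a, F' a = nf x' y' a := fun a => rfl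
  refine ⟨⟨F.symm.trans F', ?_⟩, ?_⟩
  · intro g h
    obtain ⟨a, rfl⟩ := F.surjective g
    obtain ⟨b, rfl⟩ := F.surjective h
    show F' (F.symm (F a * F b)) = F' (F.symm (F a)) * F' (F.symm (F b))
    rw [hF a, hF b, nf_mul hz hx hy hzw, ← hF, ← hF, ← hF, F.symm_apply_apply,
      F.symm_apply_apply, F.symm_apply_apply, hF', hF' a, hF' b, nf_mul hz' hx' hy' hzw']
  · intro a
    show F' (F.symm (nf x y a)) = nf x' y' a
    rw [← hF, F.symm_apply_apply, hF']

end heis


/-! ### The structure given by the automorphism -/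

section str

open Subgroup

variable {H : Type} [Group H]

theorem center_card {w : ℕ} (hw : w.Prime) (hH : Nat.card H = w ^ 3)
    (hc : ∃ x y : H, x * y ≠ y * x) :
    Nat.card (center H) = w ∧ Nat.card (H ⧸ center H) = w ^ 2 := by
  have : Fact w.Prime := ⟨hw⟩
  have : Finite H := Nat.finite_of_card_ne_zero (by rw [hH]; exact pow_ne_zero 3 hw.ne_zero)
  obtain ⟨k, hk0, hk⟩ := IsPGroup.card_center_eq_prime_pow hH (by norm_num)
  have hmul : Nat.card (H ⧸ center H) * Nat.card (center H) = w ^ 3 := by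
    rw [← Subgroup.card_eq_card_quotient_mul_card_subgroup, hH]
  have hk3 : k ≤ 3 := by
    have h1 : w ^ k ∣ w ^ 3 := ⟨Nat.card (H ⧸ center H), by rw [← hmul, hk]; ring⟩
    exact (Nat.pow_dvd_pow_iff_le_right hw.one_lt).1 h1
  have hk2 : k < 2 := by
    by_contra hcon
    have h2 : Nat.card (H ⧸ center H) ∣ w := by
      have h3 : Nat.card (H ⧸ center H) * w ^ (k - 2) * w ^ 2 = w * w ^ 2 := by
        rw [mul_assoc, ← pow_add, Nat.sub_add_cancel (by omega), ← hk, hmul]; ring
      have h4 := Nat.eq_of_mul_eq_mul_right (pow_pos hw.pos 2) h3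
      exact ⟨w ^ (k - 2), h4.symm⟩
    have : IsCyclic (H ⧸ center H) := isCyclic_of_card_dvd_prime h2
    have h5 := isMulCommutative_of_isCyclic_quotient_center_self H
    obtain ⟨x, y, hxy⟩ := hc
    exact hxy (h5.is_comm.comm x y)
  have hk1 : k = 1 := by omega
  rw [hk1, pow_one] at hk
  refine ⟨hk, ?_⟩
  rw [hk] at hmul
  have : Nat.card (H ⧸ center H) * w = w ^ 2 * w := by rw [hmul]; ring
  exact Nat.eq_of_mul_eq_mul_right hw.pos this

/-- the automorphism induced on the quotient by the centre -/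
noncomputable def bq (b : MulAut H) : MulAut (H ⧸ center H) :=
  QuotientGroup.congr (center H) (center H) b
    (Subgroup.characteristic_iff_map_eq.1 centerCharacteristic b)

theorem bq_mk (b : MulAut H) (x : H) :
    bq b (QuotientGroup.mk x) = QuotientGroup.mk (b x) := rfl

theorem bq_pow_mk (b : MulAut H) (n : ℕ) (x : H) :
    (bq b ^ n) (QuotientGroup.mk x) = QuotientGroup.mk ((b ^ n) x) := by
  induction n generalizing x with
  | zero => rfl
  | succ n ih =>
    rw [pow_succ, pow_succ, MulAut.mul_apply, MulAut.mul_apply, bq_mk, ih]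

/-- the automorphism induced on the centre -/
def bz (b : MulAut H) : MulAut (center H) := Subgroup.centerCongr b

theorem bz_coe (b : MulAut H) (x : center H) : ((bz b x : center H) : H) = b x := rfl

theorem bz_pow_coe (b : MulAut H) (n : ℕ) (x : center H) :
    (((bz b ^ n) x : center H) : H) = (b ^ n) x := by
  induction n generalizing x with
  | zero => rfl
  | succ n ih =>
    rw [pow_succ, pow_succ, MulAut.mul_apply, MulAut.mul_apply, ih, bz_coe]

theorem w_gt {B w : ℕ} (hwB : (w : ZMod B) = -1) : B ≤ w + 1 := by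
  have h1 : ((w + 1 : ℕ) : ZMod B) = 0 := by push_cast; rw [hwB]; ring
  exact Nat.le_of_dvd (Nat.succ_pos w) ((ZMod.natCast_eq_zero_iff _ _).1 h1)

theorem one_ne_neg_one {B : ℕ} (h3 : 3 < B) : (1 : ZMod B) ≠ -1 := by
  intro h
  have h2 : ((2 : ℕ) : ZMod B) = 0 := by
    push_cast
    have : (1 : ZMod B) + 1 = 0 := by nth_rewrite 2 [h]; ring
    rw [← this]; norm_num
  have := Nat.le_of_dvd (by norm_num) ((ZMod.natCast_eq_zero_iff _ _).1 h2)
  omega

theorem notin {B w : ℕ} [Fact w.Prime] (h3 : 3 < B) (hwB : (w : ZMod B) = -1)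
    (ζ : (GaloisField w 2)ˣ) (hζ : orderOf ζ = B) (c : ZMod w) :
    algebraMap (ZMod w) (GaloisField w 2) c ≠ ζ := by
  intro h
  have hw : w.Prime := Fact.out
  have h1 : ζ ^ w = ζ := by
    apply Units.ext
    rw [Units.val_pow_eq_pow_val, ← h, ← map_pow, ZMod.pow_card]
  have h2 : ζ ^ (w - 1) = 1 := by
    have h4 : ζ ^ (w - 1) * ζ = 1 * ζ := by
      rw [← pow_succ, Nat.sub_add_cancel hw.one_lt.le, h1, one_mul]
    exact mul_right_cancel h4
  have h5 : B ∣ w - 1 := hζ ▸ orderOf_dvd_of_pow_eq_one h2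
  have h6 : (w : ZMod B) = 1 := by
    have : ((w - 1 + 1 : ℕ) : ZMod B) = 1 := by
      push_cast
      rw [(ZMod.natCast_eq_zero_iff _ _).2 h5, zero_add]
    rwa [Nat.sub_add_cancel hw.one_lt.le] at this
  exact one_ne_neg_one h3 (h6.symm.trans hwB)

end str


section core

open Subgroup

/-- The basic facts about a nonabelian group of order `w ^ 3` with an automorphism of order `B`. -/
theorem core {B w : ℕ} (hB : B.Prime) [hw : Fact w.Prime] (h3 : 3 < B) (hwB : (w : ZMod B) = -1)
    {H : Type} [Group H] (hH : Nat.card H = w ^ 3) (hc : ∃ x y : H, x * y ≠ y * x)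
    (b : MulAut H) (hb : b ^ B = 1) (hb1 : b ≠ 1) :
    ∃ (e : H ⧸ center H ≃* Multiplicative (GaloisField w 2)) (ζ : (GaloisField w 2)ˣ),
      orderOf ζ = B ∧ (∀ x : H, Multiplicative.toAdd (e (QuotientGroup.mk (b x))) =
        (ζ : GaloisField w 2) * Multiplicative.toAdd (e (QuotientGroup.mk x))) ∧
      (∀ x ∈ center H, b x = x) ∧ (∀ h : H, h ^ w = 1) ∧
      (∀ x y h : H, zz x y * h = h * zz x y) := by
  have hwp : w.Prime := hw.out
  have : Finite H := Nat.finite_of_card_ne_zero (by rw [hH]; exact pow_ne_zero 3 hwp.ne_zero)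
  obtain ⟨hZ, hQ⟩ := center_card hwp hH hc
  have hBw : B ≤ w + 1 := w_gt hwB
  have hBne : B ≠ w := by
    rintro rfl
    rw [ZMod.natCast_self] at hwB
    have h1 : ((1 : ℕ) : ZMod B) = 0 := by
      push_cast
      have : (1 : ZMod B) = -(-1) := by ring
      rw [this, ← hwB]; ring
    have := Nat.le_of_dvd (by norm_num) ((ZMod.natCast_eq_zero_iff _ _).1 h1)
    omega
  have hw2 : 2 < w := by omega
  -- the centre is fixed
  have hfix : ∀ x ∈ center H, b x = x := by
    have h1 : bz b = 1 := by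
      refine aut_trivial hwp hB hBne ?_ (center H) (n := 1) (by rw [hZ, pow_one]) (bz b) ?_
      · intro j hj hj1
        have : j = 1 := by omega
        rw [this, pow_one, hwB]
        exact (one_ne_neg_one h3).symm
      · refine MulEquiv.ext fun x => Subtype.ext ?_
        rw [bz_pow_coe, hb]; rfl
    intro x hx
    have h2 := bz_coe b ⟨x, hx⟩
    rw [h1] at h2
    exact h2.symm
  -- the action on the quotient is not trivial
  have hq1 : bq b ≠ 1 := by
    intro h1
    apply hb1
    refine aut_stab hB H ?_ (center H) b hb hfix ?_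
    · rw [hH]
      exact (Nat.Coprime.pow_right 3 ((Nat.coprime_primes hB hwp).2 hBne))
    · intro x
      rw [← QuotientGroup.eq, ← bq_mk, h1]; rfl
  have hqB : bq b ^ B = 1 := by
    refine MulEquiv.ext fun x => ?_
    obtain ⟨x, rfl⟩ := QuotientGroup.mk_surjective x
    rw [bq_pow_mk, hb]; rfl
  obtain ⟨e, ζ, hζ, he⟩ := sing (p := w) (r := B) (d := 2) hB hBne (by norm_num) (by norm_num)
    (by rw [hwB]; ring) (by
      intro j hj hj1
      have : j = 1 := by omega
      rw [this, pow_one, hwB]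
      exact (one_ne_neg_one h3).symm) (H ⧸ center H) hQ (bq b) hqB hq1
  have he' : ∀ x : H, Multiplicative.toAdd (e (QuotientGroup.mk (b x))) =
      (ζ : GaloisField w 2) * Multiplicative.toAdd (e (QuotientGroup.mk x)) := fun x => by
    rw [← bq_mk, he]
  -- commutators are central
  have hzz : ∀ x y : H, zz x y ∈ center H := by
    intro x y
    rw [← QuotientGroup.eq_one_iff]
    apply e.injective
    have : e ((zz x y : H) : H ⧸ center H) =
        (e (x : H ⧸ center H) * e (y : H ⧸ center H))⁻¹ *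
        (e (y : H ⧸ center H) * e (x : H ⧸ center H)) := by
      rw [← map_mul, ← map_mul, ← map_inv, ← map_mul]; rfl
    rw [this, map_one, mul_comm (e (y : H ⧸ center H)), inv_mul_cancel]
  have hzz' : ∀ x y h : H, zz x y * h = h * zz x y := fun x y h =>
    ((mem_center_iff.1 (hzz x y)) h).symm
  have hcw : ∀ z ∈ center H, z ^ w = 1 := by
    intro z hz
    have h1 : (⟨z, hz⟩ : center H) ^ Nat.card (center H) = 1 := pow_card_eq_one'
    rw [hZ] at h1
    exact congrArg Subtype.val h1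
  have hpow : ∀ g h : H, (g * h) ^ w = g ^ w * h ^ w := by
    intro g h
    rw [mul_pow_class2 (hzz' g h)]
    obtain ⟨k, hk⟩ := hwp.dvd_choose_self (by norm_num : (2 : ℕ) ≠ 0) hw2
    rw [hk, pow_mul, hcw _ (hzz g h), one_pow, mul_one]
  have hpc : ∀ g : H, g ^ w ∈ center H := by
    intro g
    rw [← QuotientGroup.eq_one_iff]
    apply e.injective
    have : e ((g ^ w : H) : H ⧸ center H) = e (g : H ⧸ center H) ^ w := by
      rw [← map_pow]; rfl
    rw [this, map_one]
    apply Multiplicative.toAdd.injective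
    rw [toAdd_pow, toAdd_one, nsmul_eq_mul, CharP.cast_eq_zero, zero_mul]
  have hbw : ∀ g : H, (b g) ^ w = g ^ w := by
    intro g
    rw [← map_pow, hfix _ (hpc g)]
  have hζ1 : (ζ : GaloisField w 2) - 1 ≠ 0 := by
    intro h
    have h1 := notin h3 hwB ζ hζ 1
    rw [map_one] at h1
    exact h1 (sub_eq_zero.1 h).symm
  refine ⟨e, ζ, hζ, he', hfix, ?_, hzz'⟩
  intro h
  obtain ⟨g, hg⟩ : ∃ g : H, Multiplicative.toAdd (e (g : H ⧸ center H)) =
      Multiplicative.toAdd (e (h : H ⧸ center H)) / ((ζ : GaloisField w 2) - 1) := by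
    obtain ⟨q, hq⟩ := e.surjective (Multiplicative.ofAdd
      (Multiplicative.toAdd (e (h : H ⧸ center H)) / ((ζ : GaloisField w 2) - 1)))
    obtain ⟨g, rfl⟩ := QuotientGroup.mk_surjective q
    exact ⟨g, by rw [hq]; rfl⟩
  have h1 : ((g⁻¹ * b g : H) : H ⧸ center H) = (h : H ⧸ center H) := by
    apply e.injective
    apply Multiplicative.toAdd.injective
    have : e ((g⁻¹ * b g : H) : H ⧸ center H) = (e (g : H ⧸ center H))⁻¹ *
        e ((b g : H) : H ⧸ center H) := by
      rw [← map_inv, ← map_mul]; rfl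
    rw [this, toAdd_mul, toAdd_inv, he', hg]
    field_simp
    ring
  have h2 : (g⁻¹ * b g)⁻¹ * h ∈ center H := QuotientGroup.eq.1 h1
  have h4 : h = (g⁻¹ * b g) * ((g⁻¹ * b g)⁻¹ * h) := by group
  rw [h4, hpow, hcw _ h2, hpow, hbw, ← hpow, inv_mul_cancel, one_pow, mul_one]

end core


section final

open Subgroup

theorem algMap_val {w : ℕ} [Fact w.Prime] (c : ZMod w) :
    algebraMap (ZMod w) (GaloisField w 2) c = ((c.val : ℕ) : GaloisField w 2) := by
  conv_lhs => rw [← ZMod.natCast_zmod_val c]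
  rw [map_natCast]

theorem span_inj {B w : ℕ} [Fact w.Prime] (h3 : 3 < B) (hwB : (w : ZMod B) = -1)
    (ζ : (GaloisField w 2)ˣ) (hζ : orderOf ζ = B) (i j i' j' : ZMod w)
    (h : algebraMap (ZMod w) (GaloisField w 2) i + algebraMap _ _ j * (ζ : GaloisField w 2) =
      algebraMap _ _ i' + algebraMap _ _ j' * (ζ : GaloisField w 2)) : i = i' ∧ j = j' := by
  have hinj : Function.Injective (algebraMap (ZMod w) (GaloisField w 2)) :=
    (algebraMap (ZMod w) (GaloisField w 2)).injective
  by_cases hj : j = j'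
  · subst hj
    exact ⟨hinj (add_right_cancel h), rfl⟩
  · exfalso
    have h1 : algebraMap (ZMod w) (GaloisField w 2) (j' - j) ≠ 0 := by
      rw [Ne, map_eq_zero_iff _ hinj, sub_eq_zero]
      exact fun h => hj h.symm
    apply notin h3 hwB ζ hζ ((i - i') / (j' - j))
    rw [map_div₀, div_eq_iff h1, map_sub, map_sub]
    linear_combination h

theorem span_surj {B w : ℕ} [Fact w.Prime] (h3 : 3 < B) (hwB : (w : ZMod B) = -1)
    (ζ : (GaloisField w 2)ˣ) (hζ : orderOf ζ = B) (a : GaloisField w 2) :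
    ∃ i j : ZMod w, a = algebraMap (ZMod w) (GaloisField w 2) i +
      algebraMap _ _ j * (ζ : GaloisField w 2) := by
  have hb : Function.Bijective (fun p : ZMod w × ZMod w =>
      algebraMap (ZMod w) (GaloisField w 2) p.1 + algebraMap _ _ p.2 * (ζ : GaloisField w 2)) := by
    refine (Nat.bijective_iff_injective_and_card _).2 ⟨?_, ?_⟩
    · intro p q h
      obtain ⟨h1, h2⟩ := span_inj h3 hwB ζ hζ _ _ _ _ h
      exact Prod.ext h1 h2
    · rw [Nat.card_prod, Nat.card_zmod, GaloisField.card w 2 (by norm_num)]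
      ring
  obtain ⟨p, hp⟩ := hb.2 a
  exact ⟨p.1, p.2, hp.symm⟩

theorem choose_x {B w : ℕ} [hw : Fact w.Prime] (h3 : 3 < B) (hwB : (w : ZMod B) = -1)
    {H : Type} [Group H]
    (e : H ⧸ center H ≃* Multiplicative (GaloisField w 2)) (ζ : (GaloisField w 2)ˣ)
    (hζ : orderOf ζ = B) (b : MulAut H)
    (he : ∀ x : H, Multiplicative.toAdd (e (QuotientGroup.mk (b x))) =
        (ζ : GaloisField w 2) * Multiplicative.toAdd (e (QuotientGroup.mk x)))
    (hfix : ∀ x ∈ center H, b x = x) (hexp : ∀ h : H, h ^ w = 1) :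
    ∃ x : H, x * b x ≠ b x * x ∧ ∃ i j : ZMod w, b (b x) = x ^ i.val * (b x) ^ j.val ∧
      (ζ : GaloisField w 2) ^ 2 = algebraMap _ _ i + algebraMap _ _ j * (ζ : GaloisField w 2) := by
  obtain ⟨x, hx⟩ : ∃ g : H, Multiplicative.toAdd (e (g : H ⧸ center H)) = 1 := by
    obtain ⟨q, hq⟩ := e.surjective (Multiplicative.ofAdd 1)
    obtain ⟨g, rfl⟩ := QuotientGroup.mk_surjective q
    exact ⟨g, by rw [hq]; rfl⟩
  have hy : Multiplicative.toAdd (e ((b x : H) : H ⧸ center H)) = ζ := by rw [he, hx, mul_one]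
  have hform : ∀ i j : ZMod w,
      Multiplicative.toAdd (e ((x ^ i.val * (b x) ^ j.val : H) : H ⧸ center H)) =
      algebraMap _ _ i + algebraMap _ _ j * (ζ : GaloisField w 2) := by
    intro i j
    have : e ((x ^ i.val * (b x) ^ j.val : H) : H ⧸ center H) =
        e (x : H ⧸ center H) ^ i.val * e ((b x : H) : H ⧸ center H) ^ j.val := by
      rw [QuotientGroup.mk_mul, QuotientGroup.mk_pow, QuotientGroup.mk_pow, map_mul e, map_pow e,
        map_pow e]
    rw [this, toAdd_mul, toAdd_pow, toAdd_pow, hx, hy, algMap_val, algMap_val, nsmul_eq_mul,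
      nsmul_eq_mul, mul_one]
  have hrep : ∀ h : H, ∀ i j : ZMod w, Multiplicative.toAdd (e (h : H ⧸ center H)) =
      algebraMap _ _ i + algebraMap _ _ j * (ζ : GaloisField w 2) →
      ∃ c ∈ center H, h = x ^ i.val * (b x) ^ j.val * c := by
    intro h i j hij
    rw [← hform] at hij
    have h1 := e.injective (Multiplicative.toAdd.injective hij)
    refine ⟨(x ^ i.val * (b x) ^ j.val)⁻¹ * h, QuotientGroup.eq.1 h1.symm, by group⟩
  have hncomm : x * b x ≠ b x * x := by
    intro hcomm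
    have hcx : ∀ h : H, h * x = x * h := by
      intro h
      obtain ⟨i, j, hij⟩ := span_surj h3 hwB ζ hζ (Multiplicative.toAdd (e (h : H ⧸ center H)))
      obtain ⟨c, hcc, rfl⟩ := hrep h i j hij
      have c1 : Commute x (b x) := hcomm
      have c2 : Commute x c := mem_center_iff.1 hcc x
      exact (((Commute.refl x).pow_right _).mul_right (c1.pow_right _) |>.mul_right c2).eq.symm
    have : x ∈ center H := mem_center_iff.2 hcx
    rw [← QuotientGroup.eq_one_iff] at this
    rw [this, map_one, toAdd_one] at hx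
    exact zero_ne_one hx
  obtain ⟨i, j, hij⟩ := span_surj h3 hwB ζ hζ ((ζ : GaloisField w 2) ^ 2)
  obtain ⟨c, hcc, hbb⟩ := hrep (b (b x)) i j (by rw [he, hy, ← hij]; ring)
  -- correct by a central element
  have hne : i + j - 1 ≠ 0 := by
    intro h0
    have h1 : ((ζ : GaloisField w 2) - algebraMap (ZMod w) _ 1) *
        ((ζ : GaloisField w 2) - algebraMap (ZMod w) _ (-i)) = 0 := by
      have h2 : algebraMap (ZMod w) (GaloisField w 2) (i + j - 1) = 0 := by rw [h0, map_zero]
      rw [map_sub, map_add, map_one] at h2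
      rw [map_one, map_neg]
      linear_combination hij + (ζ : GaloisField w 2) * h2
    rcases mul_eq_zero.1 h1 with h2 | h2
    · exact notin h3 hwB ζ hζ 1 (sub_eq_zero.1 h2).symm
    · exact notin h3 hwB ζ hζ (-i) (sub_eq_zero.1 h2).symm
  set k : ZMod w := (i + j - 1)⁻¹ with hk
  have hd : c ^ k.val ∈ center H := pow_mem hcc _
  set d : H := c ^ k.val with hdd
  have hdc : ∀ h : H, h * d = d * h := mem_center_iff.1 hd
  have hdn : ∀ (n : ℕ) (h : H), h * d ^ n = d ^ n * h := fun n h =>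
    mem_center_iff.1 (pow_mem hd n) h
  have hdpow : d ^ (i.val + j.val) = c * d := by
    rw [hdd, ← pow_mul, ← pow_succ', pow_eq_pow_mod _ (hexp c),
      pow_eq_pow_mod (k.val + 1) (hexp c)]
    congr 1
    have : ((k.val * (i.val + j.val) : ℕ) : ZMod w) = ((k.val + 1 : ℕ) : ZMod w) := by
      push_cast
      rw [ZMod.natCast_zmod_val, ZMod.natCast_zmod_val, ZMod.natCast_zmod_val]
      have h1 : k * (i + j - 1) = 1 := inv_mul_cancel₀ hne
      linear_combination h1
    exact (ZMod.natCast_eq_natCast_iff _ _ _).1 this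
  have hbd : b d = d := hfix d hd
  refine ⟨x * d, ?_, i, j, ?_, hij⟩
  · rw [map_mul, hbd]
    intro h
    apply hncomm
    have h1 : x * b x * (d * d) = b x * x * (d * d) := by
      calc x * b x * (d * d) = x * (b x * d) * d := by simp only [mul_assoc]
        _ = x * (d * b x) * d := by rw [hdc (b x)]
        _ = x * d * (b x * d) := by simp only [mul_assoc]
        _ = b x * d * (x * d) := h
        _ = b x * (d * x) * d := by simp only [mul_assoc]
        _ = b x * (x * d) * d := by rw [hdc x]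
        _ = b x * x * (d * d) := by simp only [mul_assoc]
    exact mul_right_cancel h1
  · rw [map_mul, hbd, map_mul, hbd, hbb]
    have c1 : Commute x d := hdc x
    have c2 : Commute (b x) d := hdc (b x)
    rw [c1.mul_pow, c2.mul_pow]
    calc x ^ i.val * b x ^ j.val * c * d = x ^ i.val * b x ^ j.val * (c * d) := by
          simp only [mul_assoc]
      _ = x ^ i.val * b x ^ j.val * (d ^ i.val * d ^ j.val) := by rw [← hdpow, pow_add]
      _ = x ^ i.val * (b x ^ j.val * d ^ i.val) * d ^ j.val := by simp only [mul_assoc]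
      _ = _ := by rw [hdn i.val (b x ^ j.val)]; simp only [mul_assoc]

end final

end Pool.Agent.helper74.GN.G7a

namespace Pool.Agent.helper74.GN

open Subgroup G7a

/-- GN7a (Baer): a nonabelian group of order `w ^ 3` with an automorphism of order `B`. -/
theorem heis_unique {B w : ℕ} (hB : B.Prime) (hw : w.Prime) (h3 : 3 < B)
    (hwB : (w : ZMod B) = -1) (H H' : Type) [Group H] [Group H'] (hH : Nat.card H = w ^ 3)
    (hH' : Nat.card H' = w ^ 3) (hc : ∃ x y : H, x * y ≠ y * x) (hc' : ∃ x y : H', x * y ≠ y * x)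
    (b : MulAut H) (b' : MulAut H') (hb : b ^ B = 1) (hb1 : b ≠ 1) (hb' : b' ^ B = 1)
    (hb1' : b' ≠ 1) :
    ∃ (u : (ZMod B)ˣ) (e : H ≃* H'), ∀ x, e (b x) = (b' ^ (u : ZMod B).val) (e x) := by
  have : Fact w.Prime := ⟨hw⟩
  have : NeZero B := ⟨hB.ne_zero⟩
  have : Fact (1 < w) := ⟨hw.one_lt⟩
  obtain ⟨e, ζ, hζ, he, hfix, hexp, hzz⟩ := core hB h3 hwB hH hc b hb hb1
  obtain ⟨e', ζ', hζ', he', hfix', hexp', hzz'⟩ := core hB h3 hwB hH' hc' b' hb' hb1'
  -- the exponent
  obtain ⟨m, hmB, hm⟩ : ∃ m < B, (ζ' : GaloisField w 2) ^ m = ζ := by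
    have h1 : IsPrimitiveRoot (ζ' : GaloisField w 2) B := by
      rw [IsPrimitiveRoot.coe_units_iff, ← hζ']
      exact IsPrimitiveRoot.orderOf ζ'
    apply h1.eq_pow_of_pow_eq_one
    rw [← Units.val_pow_eq_pow_val, ← hζ, pow_orderOf_eq_one, Units.val_one]
  have hm0 : m ≠ 0 := by
    rintro rfl
    rw [pow_zero] at hm
    have h1 := notin h3 hwB ζ hζ 1
    rw [map_one] at h1
    exact h1 hm
  have hcop : m.Coprime B := by
    rw [Nat.coprime_comm]
    exact (Nat.Prime.coprime_iff_not_dvd hB).2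
      (fun h => absurd (Nat.le_of_dvd (Nat.pos_of_ne_zero hm0) h) (not_le.2 hmB))
  refine ⟨ZMod.unitOfCoprime m hcop, ?_⟩
  have huv : ((ZMod.unitOfCoprime m hcop : (ZMod B)ˣ) : ZMod B).val = m := by
    rw [ZMod.coe_unitOfCoprime, ZMod.val_natCast, Nat.mod_eq_of_lt hmB]
  rw [huv]
  set b'' := b' ^ m with hb''
  have hpw : ∀ (n : ℕ) (x : H'), Multiplicative.toAdd (e' (QuotientGroup.mk ((b' ^ n) x))) =
      (ζ' : GaloisField w 2) ^ n * Multiplicative.toAdd (e' (QuotientGroup.mk x)) := by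
    intro n
    induction n with
    | zero => intro x; simp
    | succ n ih =>
      intro x
      rw [pow_succ, MulAut.mul_apply, ih, he', pow_succ, mul_assoc]
  have hfx : ∀ (n : ℕ), ∀ x ∈ center H', (b' ^ n) x = x := by
    intro n
    induction n with
    | zero => intro x _; rfl
    | succ n ih =>
      intro x hx
      rw [pow_succ, MulAut.mul_apply, hfix' x hx, ih x hx]
  obtain ⟨x, hxy, i, j, hbb, hij⟩ := choose_x h3 hwB e ζ hζ b he hfix hexp
  obtain ⟨x', hxy', i', j', hbb', hij'⟩ := choose_x h3 hwB e' ζ hζ b''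
    (fun x => by rw [hb'', hpw, hm]) (hfx m) hexp'
  obtain ⟨rfl, rfl⟩ := span_inj h3 hwB ζ hζ _ _ _ _ (hij.symm.trans hij')
  have hz1 : zz x (b x) ≠ 1 := fun h => hxy (by
    have := zz_spec x (b x)
    rw [h, mul_one] at this
    exact this.symm)
  have hz1' : zz x' (b'' x') ≠ 1 := fun h => hxy' (by
    have := zz_spec x' (b'' x')
    rw [h, mul_one] at this
    exact this.symm)
  obtain ⟨E, hE⟩ := exists_equiv hw hH hH' (hzz x (b x)) (hzz' x' (b'' x')) (hexp _) (hexp _)
    (hexp' _) (hexp' _) (hexp _) (hexp' _) hz1 hz1'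
  have hEx : E x = x' := by
    have := hE (1, 0, 0)
    simpa [nf, ZMod.val_one] using this
  have hEy : E (b x) = b'' x' := by
    have := hE (0, 1, 0)
    simpa [nf, ZMod.val_one] using this
  refine ⟨E, fun h => ?_⟩
  obtain ⟨a, rfl⟩ := (nf_bij hw hH (hzz x (b x)) (hexp _) hz1).2 h
  have f1 : E (b x) = b'' (E x) := by rw [hEy, hEx]
  have f2 : E (b (b x)) = b'' (E (b x)) := by
    rw [hbb, hEy, hbb', map_mul, map_pow, map_pow, hEx, hEy]
  have g1 : ∀ p q : H, E (b (zz p q)) = zz (E (b p)) (E (b q)) := fun p q => by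
    simp [zz]
  have g2 : ∀ p q : H, b'' (E (zz p q)) = zz (b'' (E p)) (b'' (E q)) := fun p q => by
    simp [zz]
  simp only [nf, map_mul, map_pow]
  rw [g1, g2, f2, f1]

end Pool.Agent.helper74.GN
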